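import Pool.Agent.V1171.WE.Main

set_option autoImplicit false

open Set Metric Filter Topology MeasureTheory Pool.Agent.V1171.WE

namespace Pool.Agent.Results.MP_3df006_an.NotMutuallyAC

/-- Dimension one, `Ω = B(0, e)`, `K` the closed unit disc, `Q(z) = |z|²/4 - 3/4` (a smooth, strictly
subharmonic weight): the measures `μ = dd^c V*` and `ν = dd^c U*` have the same support but `μ` is
not absolutely continuous with respect to `ν`. -/
theorem result : ∃ (Ω K : Set ℂ) (Q : ℂ → ℝ) (μ ν : Measure ℂ),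
    Ω = ball 0 (Real.exp 1) ∧ K = closedBall 0 1 ∧ Q = (fun z => ‖z‖ ^ 2 / 4 - 3 / 4) ∧
    IsHyperconvex Ω ∧ IsCompact K ∧ K ⊆ Ω ∧ LowerSemicontinuousOn Q K ∧ (∀ z ∈ K, Q z ≤ 0) ∧
    ¬ IsPolar {z | z ∈ K ∧ Q z < 0} ∧
    (∃ v : ℂ → ℝ, Continuous v ∧ ∀ z, reg (VV K Q) z = (v z : EReal)) ∧
    (∃ u : ℂ → ℝ, Continuous u ∧ ∀ z ∈ Ω, reg (UU K Q Ω) z = (u z : EReal)) ∧
    IsFiniteMeasure μ ∧ IsFiniteMeasure ν ∧ ν Ωᶜ = 0 ∧
    IsMA univ (reg (VV K Q)) μ ∧ IsMA Ω (reg (UU K Q Ω)) ν ∧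
    μ.support = ν.support ∧ ¬ μ ≪ ν := by
  have he : (1 : ℝ) < Real.exp 1 := Real.one_lt_exp_iff.mpr one_pos
  refine ⟨ball 0 (Real.exp 1), closedBall 0 1, QQ, mu, nu, rfl, rfl, rfl, hyperconvex_ball,
    isCompact_closedBall _ _, closedBall_subset_ball he, ?_, ?_, not_polar,
    ⟨ww 1, continuous_ww 1, reg_VV⟩, ⟨ww (1 / 2), continuous_ww _, fun z hz => reg_UU hz⟩,
    inferInstance, inferInstance, ?_, isMA_mu, isMA_nu, ?_, not_ac⟩
  · have : Continuous QQ := by unfold QQ; fun_prop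
    exact this.lowerSemicontinuous.lowerSemicontinuousOn _
  · intro z hz
    rw [mem_closedBall_zero_iff] at hz
    unfold QQ
    nlinarith [norm_nonneg z]
  · unfold nu
    rw [Measure.restrict_apply isOpen_ball.measurableSet.compl]
    have : (ball (0 : ℂ) (Real.exp 1))ᶜ ∩ ball 0 1 = ∅ := by
      ext z
      simp only [mem_inter_iff, mem_compl_iff, mem_ball_zero_iff, mem_empty_iff_false, iff_false,
        not_and, not_lt]
      exact fun h => he.le.trans h
    rw [this, measure_empty]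
  · rw [support_mu, support_nu]

end Pool.Agent.Results.MP_3df006_an.NotMutuallyAC
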